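import Pool.Agent.Helper96_LAX.Stmts

/-!
# CUT1: the cut set, square root form (squad LAX, MP_0a041d_co)
-/

set_option autoImplicit false

namespace Pool.Agent.LAX.H75

open Pool.Agent.LAX

section

variable {X V : Type}

/-- a set covered by `g` subsingletons has at most `g` elements -/
theorem sub_ncard (A : Set X) (g : ℕ) (W : ℕ → Set X) (h : ∀ x ∈ A, ∃ i < g, x ∈ W i)
    (hW : ∀ i, ∀ x ∈ W i, ∀ y ∈ W i, x = y) : A.ncard ≤ g := by
  classical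
  choose! f hf hfW using h
  have h1 := Set.ncard_le_ncard_of_injOn (s := A) (t := ((Finset.range g : Finset ℕ) : Set ℕ)) f
    (fun a ha => by simpa using hf a ha)
    (fun a ha b hb hab => hW (f a) a (hfW a ha) b (by rw [hab]; exact hfW b hb))
    (Finset.finite_toSet _)
  rwa [Set.ncard_coe_finset, Finset.card_range] at h1

theorem walk_fwd {F : Set (V × V)} (hF : PI F) {c c' : ℕ → V} (h0 : c 0 = c' 0) :
    ∀ i : ℕ, (∀ t < i, (c t, c (t + 1)) ∈ F) → (∀ t < i, (c' t, c' (t + 1)) ∈ F) → c i = c' i := by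
  intro i
  induction i with
  | zero => intro _ _; exact h0
  | succ i ih =>
    intro h1 h2
    have h3 := ih (fun t ht => h1 t (by omega)) (fun t ht => h2 t (by omega))
    have h4 := h1 i (by omega)
    have h5 := h2 i (by omega)
    rw [← h3] at h5
    exact hF.1 _ _ _ h4 h5

theorem walk_bwd {F : Set (V × V)} (hF : PI F) {c c' : ℕ → V} :
    ∀ i : ℕ, c i = c' i → (∀ t < i, (c t, c (t + 1)) ∈ F) → (∀ t < i, (c' t, c' (t + 1)) ∈ F) →
      c 0 = c' 0 := by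
  intro i
  induction i with
  | zero => intro h _ _; exact h
  | succ i ih =>
    intro h h1 h2
    have h4 := h1 i (by omega)
    have h5 := h2 i (by omega)
    rw [← h] at h5
    have h6 := hF.2 _ _ _ h4 h5
    exact ih h6 (fun t ht => h1 t (by omega)) (fun t ht => h2 t (by omega))

theorem win_ncard {F : Set (V × V)} (hF : PI F) (g : ℕ) (v : V) : (win F g v).ncard ≤ g := by
  refine sub_ncard (win F g v) g (fun i => {a | a ∈ F ∧ ∃ c : ℕ → V, c 0 = v ∧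
    (∀ t < i, (c t, c (t + 1)) ∈ F) ∧ c i = a.1}) ?_ ?_
  · rintro a ⟨ha, i, hi, c, h1, h2, h3⟩
    exact ⟨i, hi, ha, c, h1, h2, h3⟩
  · rintro i ⟨a1, a2⟩ ⟨ha, c, h1, h2, h3⟩ ⟨b1, b2⟩ ⟨hb, c', h1', h2', h3'⟩
    have h4 := walk_fwd hF (h1.trans h1'.symm) i h2 h2'
    have h5 : a1 = b1 := h3.symm.trans (h4.trans h3')
    subst h5
    rw [hF.1 _ _ _ ha hb]

theorem win_ncard' {F : Set (V × V)} (hF : PI F) (g : ℕ) (a : V × V) :
    {v | a ∈ win F g v}.ncard ≤ g := by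
  refine sub_ncard _ g (fun i => {v | ∃ c : ℕ → V, c 0 = v ∧
    (∀ t < i, (c t, c (t + 1)) ∈ F) ∧ c i = a.1}) ?_ ?_
  · rintro v ⟨ha, i, hi, c, h1, h2, h3⟩
    exact ⟨i, hi, c, h1, h2, h3⟩
  · rintro i v ⟨c, h1, h2, h3⟩ v' ⟨c', h1', h2', h3'⟩
    have h4 := walk_bwd hF i (h3.trans h3'.symm) h2 h2'
    rw [← h1, ← h1', h4]

theorem am_ncard [Finite V] {E R F : Set (V × V)} {k : ℕ} (hE : Reg E k) (hR : R ⊆ E)
    (hF : PI F) (A : Set V) (y : V) : (am R F A y).ncard ≤ k := by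
  rw [← (hE y).2]
  refine Set.ncard_le_ncard_of_injOn Prod.fst ?_ ?_ (Set.toFinite _)
  · rintro a ⟨-, h2, -⟩
    exact hR h2
  · rintro ⟨a1, a2⟩ ⟨h1, -, -⟩ ⟨b1, b2⟩ ⟨h2, -, -⟩ h
    simp only at h
    subst h
    rw [hF.1 _ _ _ h1 h2]

theorem ap_ncard [Finite V] {E R F : Set (V × V)} {k : ℕ} (hE : Reg E k) (hR : R ⊆ E)
    (hF : PI F) (A : Set V) (x : V) : (ap R F A x).ncard ≤ k := by
  rw [← (hE x).1]
  refine Set.ncard_le_ncard_of_injOn Prod.snd ?_ ?_ (Set.toFinite _)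
  · rintro a ⟨-, h2, -⟩
    exact hR h2
  · rintro ⟨a1, a2⟩ ⟨h1, -, -⟩ ⟨b1, b2⟩ ⟨h2, -, -⟩ h
    simp only at h
    subst h
    rw [hF.2 _ _ _ h1 h2]

/-- the seven families -/
def fam (R : Set (V × V)) (F : ℕ → Set (V × V)) (C : Finset ℕ) (Eb : Set V) (g : ℕ) (c : ℕ)
    (v : V) : Fin 7 → Set (V × V) :=
  ![{a | c = 0 ∧ a.1 = v ∧ ∃ c' ∈ C, a ∈ F c'},
    {a | c = 0 ∧ a.2 = v ∧ ∃ c' ∈ C, a ∈ F c'},
    {a | c ∈ C ∧ a ∈ win (F c) g v},
    {a | c ∈ C ∧ a ∈ am R (F c) Set.univ v},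
    {a | c ∈ C ∧ a ∈ ap R (F c) Set.univ v},
    {a | c ∈ C ∧ a ∈ am R (F c) Eb v},
    {a | c ∈ C ∧ a ∈ ap R (F c) Eb v}]

theorem ncard_sigma {ι Y : Type} [Fintype ι] [Finite Y] (A : Set (ι × Y)) (B : ι → ℕ)
    (h : ∀ t, {x | (t, x) ∈ A}.ncard ≤ B t) : A.ncard ≤ ∑ t, B t := by
  have h1 : A = ⋃ t, (Prod.mk t) '' {x | (t, x) ∈ A} := by
    ext ⟨t, x⟩
    simp only [Set.mem_iUnion, Set.mem_image, Set.mem_ofPred_eq, Prod.mk.injEq]
    constructor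
    · intro h
      exact ⟨t, x, h, rfl, rfl⟩
    · rintro ⟨t', x', h, rfl, rfl⟩
      exact h
  rw [h1]
  refine (Set.ncard_iUnion_le_of_fintype _).trans (Finset.sum_le_sum fun t _ => ?_)
  exact (Set.ncard_image_le (Set.toFinite _)).trans (h t)

theorem fiber_ncard [Finite V] {q : ℕ} (C : Finset ℕ) (Fa : ℕ → Prop)
    (hFa : ∀ c ∈ C, ∀ d ∈ C, Fa c → Fa d → c = d) (P : ℕ → V → Prop) (n : ℕ)
    (h1 : ∀ c v, P c v → Fa c) (h2 : ∀ c ∈ C, Fa c → {v | P c v}.ncard ≤ n) :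
    {x : Fin (q + 1) × V | (x.1 : ℕ) ∈ C ∧ P x.1 x.2}.ncard ≤ n := by
  rcases Set.eq_empty_or_nonempty {x : Fin (q + 1) × V | (x.1 : ℕ) ∈ C ∧ P x.1 x.2} with h | h
  · rw [h, Set.ncard_empty]
    exact Nat.zero_le _
  · obtain ⟨x0, hx0, hP0⟩ := h
    have hF0 := h1 _ _ hP0
    have key : ∀ x : Fin (q + 1) × V, (x.1 : ℕ) ∈ C → P x.1 x.2 → x.1 = x0.1 :=
      fun x hx hP => Fin.ext (hFa _ hx _ hx0 (h1 _ _ hP) hF0)
    refine (Set.ncard_le_ncard_of_injOn (t := {v | P x0.1 v}) Prod.snd ?_ ?_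
      (Set.toFinite _)).trans (h2 _ hx0 hF0)
    · rintro x ⟨hx, hP⟩
      have := key x hx hP
      rw [this] at hP
      exact hP
    · rintro x ⟨hx, hP⟩ y ⟨hy, hP'⟩ hxy
      exact Prod.ext ((key x hx hP).trans (key y hy hP').symm) hxy

theorem am_ncard' [Finite V] {E R F : Set (V × V)} {k : ℕ} (hE : Reg E k) (hR : R ⊆ E)
    (A : Set V) (a : V × V) : {v | a ∈ am R F A v}.ncard ≤ k := by
  rw [← (hE a.1).1]
  refine Set.ncard_le_ncard ?_ (Set.toFinite _)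
  rintro v ⟨-, h2, -⟩
  exact hR h2

theorem ap_ncard' [Finite V] {E R F : Set (V × V)} {k : ℕ} (hE : Reg E k) (hR : R ⊆ E)
    (A : Set V) (a : V × V) : {v | a ∈ ap R F A v}.ncard ≤ k := by
  rw [← (hE a.2).2]
  refine Set.ncard_le_ncard ?_ (Set.toFinite _)
  rintro v ⟨-, h2, -⟩
  exact hR h2

theorem ncard_guard {Y : Type} (p : Prop) (B : Set Y) (n : ℕ) (h : p → B.ncard ≤ n) :
    {a | p ∧ a ∈ B}.ncard ≤ n := by
  by_cases hp : p
  · have e : {a | p ∧ a ∈ B} = B := by ext a; simp [hp]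
    rw [e]
    exact h hp
  · have e : {a | p ∧ a ∈ B} = ∅ := by ext a; simp [hp]
    rw [e, Set.ncard_empty]
    exact Nat.zero_le _

end

theorem cut1 (hIP : IPStmt) : Cut1Stmt := by
  intro V _ E R k q g u w F Z C Eb lam h hlam hk hgk hE hR hCl hC hCk
  have hN := hIP (V × V) (Fin 7 × (Fin (q + 1) × V)) (fun j => fam R F C Eb g j.2.1 j.2.2 j.1)
    (6 * k) lam h hlam (by push_cast; linarith) ?_ ?_
  · obtain ⟨col, -, hcol⟩ := hN
    have h0 : (0 : ℕ) < 2 ^ h := by positivity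
    have hne : ∀ v, Near lam h {a | a.1 = v ∧ ∃ c ∈ C, a ∈ F c} {z | col z = 0} ∧
        Near lam h {a | a.2 = v ∧ ∃ c ∈ C, a ∈ F c} {z | col z = 0} := by
      intro v
      have h1 := hcol ((0 : Fin 7), ((0 : Fin (q + 1)), v)) 0 h0
      have h2 := hcol ((1 : Fin 7), ((0 : Fin (q + 1)), v)) 0 h0
      simp only [fam, Fin.val_zero, true_and] at h1 h2
      exact ⟨h1, h2⟩
    refine ⟨{z | col z = 0}, hne, fun c hc v => ?_⟩
    have hcq := hC c hc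
    have h2 := hcol ((2 : Fin 7), ((⟨c, by omega⟩ : Fin (q + 1)), v)) 0 h0
    have h3 := hcol ((3 : Fin 7), ((⟨c, by omega⟩ : Fin (q + 1)), v)) 0 h0
    have h4 := hcol ((4 : Fin 7), ((⟨c, by omega⟩ : Fin (q + 1)), v)) 0 h0
    have h5 := hcol ((5 : Fin 7), ((⟨c, by omega⟩ : Fin (q + 1)), v)) 0 h0
    have h6 := hcol ((6 : Fin 7), ((⟨c, by omega⟩ : Fin (q + 1)), v)) 0 h0
    have e : ∀ B : Set (V × V), {a | c ∈ C ∧ a ∈ B} = B := by
      intro B; ext a; simp [hc]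
    have e2 : fam R F C Eb g c v 2 = {a | c ∈ C ∧ a ∈ win (F c) g v} := rfl
    have e3 : fam R F C Eb g c v 3 = {a | c ∈ C ∧ a ∈ am R (F c) Set.univ v} := rfl
    have e4 : fam R F C Eb g c v 4 = {a | c ∈ C ∧ a ∈ ap R (F c) Set.univ v} := rfl
    have e5 : fam R F C Eb g c v 5 = {a | c ∈ C ∧ a ∈ am R (F c) Eb v} := rfl
    have e6 : fam R F C Eb g c v 6 = {a | c ∈ C ∧ a ∈ ap R (F c) Eb v} := rfl
    simp only [e2] at h2
    simp only [e3] at h3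
    simp only [e4] at h4
    simp only [e5] at h5
    simp only [e6] at h6
    rw [e] at h2 h3 h4 h5 h6
    exact ⟨h2, h3, h4, h5, h6⟩
  · -- sizes of the families
    rintro ⟨t, c, v⟩
    have hsub : ∀ c' ∈ C, F c' ⊆ E := fun c' hc' => hCl.sub c' (hC c' hc')
    have hpi : (c : ℕ) ∈ C → PI (F c) := fun hc' => hCl.pi c (hC c hc')
    change (fam R F C Eb g c v t).ncard ≤ 6 * k
    have g6 : g ≤ 6 * k := by omega
    have k6 : k ≤ 6 * k := by omega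
    fin_cases t
    · change {a : V × V | (c : ℕ) = 0 ∧ a.1 = v ∧ ∃ c' ∈ C, a ∈ F c'}.ncard ≤ 6 * k
      refine le_trans ?_ k6
      refine (Set.ncard_le_ncard_of_injOn (t := out E v) Prod.snd ?_ ?_
        (Set.toFinite _)).trans (hE v).1.le
      · rintro ⟨b1, b2⟩ ⟨-, rfl, c', hc', h1⟩
        exact hsub c' hc' h1
      · rintro ⟨b1, b2⟩ ⟨-, h1, -⟩ ⟨d1, d2⟩ ⟨-, h2, -⟩ h3
        simp only at h1 h2 h3
        rw [h1, h2, h3]
    · change {a : V × V | (c : ℕ) = 0 ∧ a.2 = v ∧ ∃ c' ∈ C, a ∈ F c'}.ncard ≤ 6 * k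
      refine le_trans ?_ k6
      refine (Set.ncard_le_ncard_of_injOn (t := inn E v) Prod.fst ?_ ?_
        (Set.toFinite _)).trans (hE v).2.le
      · rintro ⟨b1, b2⟩ ⟨-, rfl, c', hc', h1⟩
        exact hsub c' hc' h1
      · rintro ⟨b1, b2⟩ ⟨-, h1, -⟩ ⟨d1, d2⟩ ⟨-, h2, -⟩ h3
        simp only at h1 h2 h3
        rw [h1, h2, h3]
    · exact (ncard_guard _ _ g fun hc => win_ncard (hpi hc) g v).trans g6
    · exact (ncard_guard _ _ k fun hc => am_ncard hE hR (hpi hc) Set.univ v).trans k6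
    · exact (ncard_guard _ _ k fun hc => ap_ncard hE hR (hpi hc) Set.univ v).trans k6
    · exact (ncard_guard _ _ k fun hc => am_ncard hE hR (hpi hc) Eb v).trans k6
    · exact (ncard_guard _ _ k fun hc => ap_ncard hE hR (hpi hc) Eb v).trans k6
  · -- every arc is in few families
    intro a
    have hFa : ∀ c ∈ C, ∀ d ∈ C, a ∈ F c → a ∈ F d → c = d := by
      intro c hc d hd h1 h2
      by_contra hne
      exact Set.disjoint_left.1 (hCl.disj c (hC c hc) d (hC d hd) hne) h1 h2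
    have hpi : ∀ c ∈ C, PI (F c) := fun c hc' => hCl.pi c (hC c hc')
    have hB : ∑ t : Fin 7, (![1, 1, g, k, k, k, k] : Fin 7 → ℕ) t ≤ 6 * k := by
      rw [Fin.sum_univ_seven]
      change 1 + 1 + g + k + k + k + k ≤ 6 * k
      omega
    refine (ncard_sigma _ (![1, 1, g, k, k, k, k] : Fin 7 → ℕ) fun t => ?_).trans hB
    change {x : Fin (q + 1) × V | a ∈ fam R F C Eb g x.1 x.2 t}.ncard ≤ _
    fin_cases t
    · change {x : Fin (q + 1) × V | (x.1 : ℕ) = 0 ∧ a.1 = x.2 ∧ ∃ c' ∈ C, a ∈ F c'}.ncard ≤ 1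
      rw [Set.ncard_le_one_iff]
      rintro x y ⟨h1, h2, -⟩ ⟨h3, h4, -⟩
      exact Prod.ext (Fin.ext (h1.trans h3.symm)) (h2.symm.trans h4)
    · change {x : Fin (q + 1) × V | (x.1 : ℕ) = 0 ∧ a.2 = x.2 ∧ ∃ c' ∈ C, a ∈ F c'}.ncard ≤ 1
      rw [Set.ncard_le_one_iff]
      rintro x y ⟨h1, h2, -⟩ ⟨h3, h4, -⟩
      exact Prod.ext (Fin.ext (h1.trans h3.symm)) (h2.symm.trans h4)
    · exact fiber_ncard C (fun c => a ∈ F c) hFa (fun c v => a ∈ win (F c) g v) g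
        (fun c v h => h.1) (fun c hc _ => win_ncard' (hpi c hc) g a)
    · exact fiber_ncard C (fun c => a ∈ F c) hFa (fun c v => a ∈ am R (F c) Set.univ v) k
        (fun c v h => h.1) (fun c hc _ => am_ncard' hE hR _ a)
    · exact fiber_ncard C (fun c => a ∈ F c) hFa (fun c v => a ∈ ap R (F c) Set.univ v) k
        (fun c v h => h.1) (fun c hc _ => ap_ncard' hE hR _ a)
    · exact fiber_ncard C (fun c => a ∈ F c) hFa (fun c v => a ∈ am R (F c) Eb v) k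
        (fun c v h => h.1) (fun c hc _ => am_ncard' hE hR _ a)
    · exact fiber_ncard C (fun c => a ∈ F c) hFa (fun c v => a ∈ ap R (F c) Eb v) k
        (fun c v h => h.1) (fun c hc _ => ap_ncard' hE hR _ a)

end Pool.Agent.LAX.H75
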