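import Pool.Agent.Helper75_LAX.Cut1

/-!
# CUT2: the cut sets of the classes of a block (squad LAX, MP_0a041d_co)
-/

set_option autoImplicit false

namespace Pool.Agent.LAX.H75

open Pool.Agent.LAX

section

variable {V : Type} [Finite V]

theorem am_eq {R F S0 : Set (V × V)} (hF : PI F) (A : Set V) (v : V) :
    (am R F A v ∩ S0).ncard = (inn R v ∩ A ∩ dom (S0 ∩ F)).ncard := by
  have h1 : Prod.fst '' (am R F A v ∩ S0) = inn R v ∩ A ∩ dom (S0 ∩ F) := by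
    ext x
    constructor
    · rintro ⟨⟨a1, a2⟩, ⟨⟨h1, h2, h3⟩, h4⟩, rfl⟩
      exact ⟨⟨h2, h3⟩, a2, h4, h1⟩
    · rintro ⟨⟨h2, h3⟩, a2, h4, h1⟩
      exact ⟨(x, a2), ⟨⟨h1, h2, h3⟩, h4⟩, rfl⟩
  rw [← h1, Set.ncard_image_of_injOn]
  rintro ⟨a1, a2⟩ ⟨⟨h1, -, -⟩, -⟩ ⟨b1, b2⟩ ⟨⟨h2, -, -⟩, -⟩ h
  simp only at h
  subst h
  rw [hF.1 _ _ _ h1 h2]

theorem ap_eq {R F S0 : Set (V × V)} (hF : PI F) (A : Set V) (v : V) :
    (ap R F A v ∩ S0).ncard = (out R v ∩ A ∩ ran (S0 ∩ F)).ncard := by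
  have h1 : Prod.snd '' (ap R F A v ∩ S0) = out R v ∩ A ∩ ran (S0 ∩ F) := by
    ext x
    constructor
    · rintro ⟨⟨a1, a2⟩, ⟨⟨h1, h2, h3⟩, h4⟩, rfl⟩
      exact ⟨⟨h2, h3⟩, a1, h4, h1⟩
    · rintro ⟨⟨h2, h3⟩, a1, h4, h1⟩
      exact ⟨(a1, x), ⟨⟨h1, h2, h3⟩, h4⟩, rfl⟩
  rw [← h1, Set.ncard_image_of_injOn]
  rintro ⟨a1, a2⟩ ⟨⟨h1, -, -⟩, -⟩ ⟨b1, b2⟩ ⟨⟨h2, -, -⟩, -⟩ h
  simp only at h
  subst h
  rw [hF.2 _ _ _ h1 h2]

theorem am_lower {E R F : Set (V × V)} {Z : Set V} (hR : R ⊆ E) (hZ : ∀ x, x ∉ Z → x ∈ dom F)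
    (A : Set V) (v : V) :
    (inn R v ∩ A).ncard ≤ (am R F A v).ncard + (inn E v ∩ Z).ncard := by
  have h1 : inn R v ∩ A ⊆ Prod.fst '' (am R F A v) ∪ (inn E v ∩ Z) := by
    rintro x ⟨h1, h2⟩
    by_cases hx : x ∈ Z
    · exact Or.inr ⟨hR h1, hx⟩
    · obtain ⟨y, hy⟩ := hZ x hx
      exact Or.inl ⟨(x, y), ⟨hy, h1, h2⟩, rfl⟩
  calc (inn R v ∩ A).ncard ≤ (Prod.fst '' (am R F A v) ∪ (inn E v ∩ Z)).ncard :=
        Set.ncard_le_ncard h1 (Set.toFinite _)
    _ ≤ (Prod.fst '' (am R F A v)).ncard + (inn E v ∩ Z).ncard := Set.ncard_union_le _ _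
    _ ≤ _ := Nat.add_le_add_right (Set.ncard_image_le (Set.toFinite _)) _

theorem ap_lower {E R F : Set (V × V)} {Z : Set V} (hR : R ⊆ E) (hZ : ∀ x, x ∉ Z → x ∈ ran F)
    (A : Set V) (v : V) :
    (out R v ∩ A).ncard ≤ (ap R F A v).ncard + (out E v ∩ Z).ncard := by
  have h1 : out R v ∩ A ⊆ Prod.snd '' (ap R F A v) ∪ (out E v ∩ Z) := by
    rintro x ⟨h1, h2⟩
    by_cases hx : x ∈ Z
    · exact Or.inr ⟨hR h1, hx⟩
    · obtain ⟨y, hy⟩ := hZ x hx
      exact Or.inl ⟨(y, x), ⟨hy, h1, h2⟩, rfl⟩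
  calc (out R v ∩ A).ncard ≤ (Prod.snd '' (ap R F A v) ∪ (out E v ∩ Z)).ncard :=
        Set.ncard_le_ncard h1 (Set.toFinite _)
    _ ≤ (Prod.snd '' (ap R F A v)).ncard + (out E v ∩ Z).ncard := Set.ncard_union_le _ _
    _ ≤ _ := Nat.add_le_add_right (Set.ncard_image_le (Set.toFinite _)) _

theorem am_upper {R F : Set (V × V)} (hF : PI F) (A : Set V) (v : V) :
    (am R F A v).ncard ≤ (inn R v).ncard := by
  refine Set.ncard_le_ncard_of_injOn Prod.fst ?_ ?_ (Set.toFinite _)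
  · rintro a ⟨-, h2, -⟩
    exact h2
  · rintro ⟨a1, a2⟩ ⟨h1, -, -⟩ ⟨b1, b2⟩ ⟨h2, -, -⟩ h
    simp only at h
    subst h
    rw [hF.1 _ _ _ h1 h2]

theorem ap_upper {R F : Set (V × V)} (hF : PI F) (A : Set V) (v : V) :
    (ap R F A v).ncard ≤ (out R v).ncard := by
  refine Set.ncard_le_ncard_of_injOn Prod.snd ?_ ?_ (Set.toFinite _)
  · rintro a ⟨-, h2, -⟩
    exact h2
  · rintro ⟨a1, a2⟩ ⟨h1, -, -⟩ ⟨b1, b2⟩ ⟨h2, -, -⟩ h
    simp only at h
    subst h
    rw [hF.2 _ _ _ h1 h2]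

/-- lower bounds through square roots -/
theorem near_lower {Y : Type} {lam : ℝ} {h : ℕ} {N S : Set Y} (hN : Near lam h N S) {x : ℝ}
    {n : ℕ} (hx : x ≤ (N.ncard : ℝ)) (hn : √(n : ℝ) ≤ √(x / 2 ^ h) - 5 * √lam) :
    n ≤ (N ∩ S).ncard := by
  have h1 : √(x / 2 ^ h) ≤ √((N.ncard : ℝ) / 2 ^ h) :=
    Real.sqrt_le_sqrt (div_le_div_of_nonneg_right hx (by positivity))
  have h2 : √(n : ℝ) ≤ √((N ∩ S).ncard : ℝ) := by linarith [hN.1]
  have h3 := (Real.sqrt_le_sqrt_iff (Nat.cast_nonneg _)).1 h2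
  exact_mod_cast h3

/-- upper bounds through square roots -/
theorem near_upper {Y : Type} {lam : ℝ} {h : ℕ} {N S : Set Y} (hN : Near lam h N S) {x : ℝ}
    {n : ℕ} (hx : (N.ncard : ℝ) ≤ x) (hn : √(x / 2 ^ h) + 5 / 2 * √lam ≤ √(n : ℝ)) :
    (N ∩ S).ncard ≤ n := by
  have h1 : √((N.ncard : ℝ) / 2 ^ h) ≤ √(x / 2 ^ h) :=
    Real.sqrt_le_sqrt (div_le_div_of_nonneg_right hx (by positivity))
  have h2 : √((N ∩ S).ncard : ℝ) ≤ √(n : ℝ) := by linarith [hN.2]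
  have h3 := (Real.sqrt_le_sqrt_iff (Nat.cast_nonneg _)).1 h2
  exact_mod_cast h3

end

theorem cut2 (hC1 : Cut1Stmt) (hW : WinStmt) : Cut2Stmt := by
  intro V _ E R k q w F Z C Eb lam h u lo hi e P g Hb b D D' ζ hlam hk hgk hE hR hCl hC hCP hPk
    hdeg heb hN
  obtain ⟨S0, hS1, hS2⟩ := hC1 V E R k q g u w F Z C Eb lam h hlam hk hgk hE hR hCl hC
    (hCP.trans hPk)
  have hpi : ∀ c ∈ C, PI (F c) := fun c hc' => hCl.pi c (hC c hc')
  have hdj : ∀ c ∈ C, ∀ d ∈ C, ∀ a, a ∈ F c → a ∈ F d → c = d := by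
    intro c hc d hd a h1 h2
    by_contra hne
    exact Set.disjoint_left.1 (hCl.disj c (hC c hc) d (hC d hd) hne) h1 h2
  refine ⟨fun c => S0 ∩ F c, fun c hc => ⟨Set.inter_subset_right, ?_⟩, fun v => ⟨?_, ?_⟩,
    fun c hc v => ⟨⟨?_, ?_, ?_⟩, ?_, ?_, ?_⟩⟩
  · -- acyclic
    refine hW V (F c) (S0 ∩ F c) g (hCl.cw c (hC c hc)) fun d hd hdd => ?_
    by_contra hcon
    push Not at hcon
    have h1 : win (F c) g (d 0) ∩ S0 = ∅ := by
      ext ⟨a1, a2⟩
      simp only [Set.mem_inter_iff, Set.mem_empty_iff_false, iff_false, not_and]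
      rintro ⟨ha, i, hi, d', h1, h2, h3⟩ h4
      have h5 := walk_fwd (hpi c hc) h1 i h2 (fun t ht => hd t (by omega))
      simp only at h3
      have h6 : a1 = d i := h3.symm.trans h5
      subst h6
      have h7 := (hpi c hc).1 _ _ _ ha (hd i hi)
      subst h7
      exact hcon i hi ⟨h4, ha⟩
    have h2 := (hS2 c hc (d 0)).1.1
    rw [h1, Set.ncard_empty, Nat.cast_zero, Real.sqrt_zero] at h2
    have h3 : g ≤ (win (F c) g (d 0)).ncard := by
      have h4 := Set.ncard_le_ncard_of_injOn (s := ((Finset.range g : Finset ℕ) : Set ℕ))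
        (t := win (F c) g (d 0)) (fun i => (d i, d (i + 1)))
        (fun i hi => by
          have hi' : i < g := by simpa using hi
          exact ⟨hd i hi', i, hi', d, rfl, fun t ht => hd t (by omega), rfl⟩)
        (fun i hi j hj hij => by
          have hi' : i < g := by simpa using hi
          have hj' : j < g := by simpa using hj
          have h5 : d i = d j := congrArg Prod.fst hij
          rcases lt_trichotomy i j with h6 | h6 | h6
          · exact absurd h5 (hdd i j h6 hj')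
          · exact h6
          · exact absurd h5.symm (hdd j i h6 hi'))
        (Set.toFinite _)
      rwa [Set.ncard_coe_finset, Finset.card_range] at h4
    have h4 : √((g : ℝ) / 2 ^ h) ≤ √(((win (F c) g (d 0)).ncard : ℝ) / 2 ^ h) :=
      Real.sqrt_le_sqrt (div_le_div_of_nonneg_right (by exact_mod_cast h3) (by positivity))
    have h5 := hN.hg
    linarith
  · -- few cut tails
    have h1 : {a : V × V | a.1 = v ∧ ∃ c ∈ C, a ∈ F c}.ncard ≤ P := by
      refine le_trans ?_ hCP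
      have h2 : ∀ a : V × V, (a.1 = v ∧ ∃ c ∈ C, a ∈ F c) → ∃ c, c ∈ C ∧ a ∈ F c :=
        fun a ha => ha.2
      choose! f hf using h2
      have h3 := Set.ncard_le_ncard_of_injOn (s := {a : V × V | a.1 = v ∧ ∃ c ∈ C, a ∈ F c})
        (t := (C : Set ℕ)) f (fun a ha => (hf a ha).1)
        (fun a ha a' ha' haa => by
          obtain ⟨h4, h5⟩ := hf a ha
          obtain ⟨h6, h7⟩ := hf a' ha'
          rw [← haa] at h7
          obtain ⟨a1, a2⟩ := a
          obtain ⟨b1, b2⟩ := a'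
          have e1 : a1 = v := ha.1
          have e2 : b1 = v := ha'.1
          subst e1
          subst e2
          rw [(hpi _ h4).1 _ _ _ h5 h7])
        (Finset.finite_toSet _)
      rwa [Set.ncard_coe_finset] at h3
    have h2 := near_upper (hS1 v).1 (x := (P : ℝ)) (by exact_mod_cast h1) hN.hP
    refine le_trans ?_ h2
    have h3 : ∀ c, (c ∈ C ∧ v ∈ dom (S0 ∩ F c)) → ∃ a : V × V, a.1 = v ∧ a ∈ S0 ∧ a ∈ F c := by
      rintro c ⟨-, y, h4, h5⟩
      exact ⟨(v, y), rfl, h4, h5⟩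
    have : Nonempty (V × V) := ⟨(v, v)⟩
    choose! f hf using h3
    refine Set.ncard_le_ncard_of_injOn f (fun c hc => ?_) (fun c hc c' hc' hcc => ?_)
      (Set.toFinite _)
    · obtain ⟨h4, h5, h6⟩ := hf c hc
      exact ⟨⟨h4, c, hc.1, h6⟩, h5⟩
    · obtain ⟨h4, h5, h6⟩ := hf c hc
      obtain ⟨h4', h5', h6'⟩ := hf c' hc'
      rw [← hcc] at h6'
      exact hdj c hc.1 c' hc'.1 _ h6 h6'
  · -- few cut heads
    have h1 : {a : V × V | a.2 = v ∧ ∃ c ∈ C, a ∈ F c}.ncard ≤ P := by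
      refine le_trans ?_ hCP
      have h2 : ∀ a : V × V, (a.2 = v ∧ ∃ c ∈ C, a ∈ F c) → ∃ c, c ∈ C ∧ a ∈ F c :=
        fun a ha => ha.2
      choose! f hf using h2
      have h3 := Set.ncard_le_ncard_of_injOn (s := {a : V × V | a.2 = v ∧ ∃ c ∈ C, a ∈ F c})
        (t := (C : Set ℕ)) f (fun a ha => (hf a ha).1)
        (fun a ha a' ha' haa => by
          obtain ⟨h4, h5⟩ := hf a ha
          obtain ⟨h6, h7⟩ := hf a' ha'
          rw [← haa] at h7
          obtain ⟨a1, a2⟩ := a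
          obtain ⟨b1, b2⟩ := a'
          have e1 : a2 = v := ha.1
          have e2 : b2 = v := ha'.1
          subst e1
          subst e2
          rw [(hpi _ h4).2 _ _ _ h5 h7])
        (Finset.finite_toSet _)
      rwa [Set.ncard_coe_finset] at h3
    have h2 := near_upper (hS1 v).2 (x := (P : ℝ)) (by exact_mod_cast h1) hN.hP
    refine le_trans ?_ h2
    have h3 : ∀ c, (c ∈ C ∧ v ∈ ran (S0 ∩ F c)) → ∃ a : V × V, a.2 = v ∧ a ∈ S0 ∧ a ∈ F c := by
      rintro c ⟨-, y, h4, h5⟩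
      exact ⟨(y, v), rfl, h4, h5⟩
    have : Nonempty (V × V) := ⟨(v, v)⟩
    choose! f hf using h3
    refine Set.ncard_le_ncard_of_injOn f (fun c hc => ?_) (fun c hc c' hc' hcc => ?_)
      (Set.toFinite _)
    · obtain ⟨h4, h5, h6⟩ := hf c hc
      exact ⟨⟨h4, c, hc.1, h6⟩, h5⟩
    · obtain ⟨h4, h5, h6⟩ := hf c hc
      obtain ⟨h4', h5', h6'⟩ := hf c' hc'
      rw [← hcc] at h6'
      exact hdj c hc.1 c' hc'.1 _ h6 h6'
  · have h1 := am_lower hR (fun x hx => (hCl.cov c (hC c hc) x hx).1) Set.univ v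
    rw [Set.inter_univ] at h1
    have h2 := (hCl.sm c (hC c hc) v).2
    have h3 := (hdeg v).2.1
    have h4 : (lo : ℝ) - u ≤ ((am R (F c) Set.univ v).ncard : ℝ) := by
      have : lo ≤ (am R (F c) Set.univ v).ncard + u := by omega
      have : (lo : ℝ) ≤ ((am R (F c) Set.univ v).ncard : ℝ) + u := by exact_mod_cast this
      linarith
    have h5 := near_lower (hS2 c hc v).2.1 (n := D + Hb) h4 (by push_cast; exact hN.hD)
    rwa [am_eq (hpi c hc), Set.inter_univ] at h5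
  · have h1 := (am_upper (R := R) (hpi c hc) Set.univ v).trans (hdeg v).2.2
    have h5 := near_upper (hS2 c hc v).2.1 (x := (hi : ℝ)) (by exact_mod_cast h1) hN.hD'
    rwa [am_eq (hpi c hc), Set.inter_univ] at h5
  · have h1 := am_lower hR (fun x hx => (hCl.cov c (hC c hc) x hx).1) Eb v
    have h2 := (hCl.sm c (hC c hc) v).2
    have h3 := (heb v).2
    have h4 : (e : ℝ) - u ≤ ((am R (F c) Eb v).ncard : ℝ) := by
      have : e ≤ (am R (F c) Eb v).ncard + u := by omega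
      have : (e : ℝ) ≤ ((am R (F c) Eb v).ncard : ℝ) + u := by exact_mod_cast this
      linarith
    have h5 := near_lower (hS2 c hc v).2.2.2.1 (n := ζ + Hb) h4 (by push_cast; exact hN.hz)
    rwa [am_eq (hpi c hc)] at h5
  · have h1 := ap_lower hR (fun x hx => (hCl.cov c (hC c hc) x hx).2) Set.univ v
    rw [Set.inter_univ] at h1
    have h2 := (hCl.sm c (hC c hc) v).1
    have h3 := (hdeg v).1.1
    have h4 : (lo : ℝ) - u ≤ ((ap R (F c) Set.univ v).ncard : ℝ) := by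
      have : lo ≤ (ap R (F c) Set.univ v).ncard + u := by omega
      have : (lo : ℝ) ≤ ((ap R (F c) Set.univ v).ncard : ℝ) + u := by exact_mod_cast this
      linarith
    have h5 := near_lower (hS2 c hc v).2.2.1 (n := D + Hb) h4 (by push_cast; exact hN.hD)
    rwa [ap_eq (hpi c hc), Set.inter_univ] at h5
  · have h1 := (ap_upper (R := R) (hpi c hc) Set.univ v).trans (hdeg v).1.2
    have h5 := near_upper (hS2 c hc v).2.2.1 (x := (hi : ℝ)) (by exact_mod_cast h1) hN.hD'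
    rwa [ap_eq (hpi c hc), Set.inter_univ] at h5
  · have h1 := ap_lower hR (fun x hx => (hCl.cov c (hC c hc) x hx).2) Eb v
    have h2 := (hCl.sm c (hC c hc) v).1
    have h3 := (heb v).1
    have h4 : (e : ℝ) - u ≤ ((ap R (F c) Eb v).ncard : ℝ) := by
      have : e ≤ (ap R (F c) Eb v).ncard + u := by omega
      have : (e : ℝ) ≤ ((ap R (F c) Eb v).ncard : ℝ) + u := by exact_mod_cast this
      linarith
    have h5 := near_lower (hS2 c hc v).2.2.2.2 (n := ζ + Hb) h4 (by push_cast; exact hN.hz)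
    rwa [ap_eq (hpi c hc)] at h5

end Pool.Agent.LAX.H75
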